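import Pool.Agent.Helper82.SR.Main

set_option autoImplicit false

/-! NP-complete sets without self-reductions in fixed polynomial time. -/

namespace Pool.Agent.Results.MP_b1496c_lc.FixedTime

open Pool.Agent.Helper53.CL Pool.Agent.Helper61.TQ Pool.Agent.Helper82.SR

/-- For all `c` and `k` there is a set `A`, NP-complete and p-isomorphic to SAT, which does not
reduce to itself in time `n ^ k + k` with `n / 16` bits of advice and with queries of lengths
different from the length `n` of the input and at most `n ^ c + c`. -/
theorem result (c k : ℕ) : ∃ A : Set (List Bool), NPComplete A ∧ PIso SAT A ∧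
    ¬ SelfReducible (fun n => n ^ c + c) (fun n => n ^ k + k) (fun n => n / 16) A :=
  fixedTime c k

end Pool.Agent.Results.MP_b1496c_lc.FixedTime
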