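import Pool.Agent.Helper82.SR.Log

set_option autoImplicit false

/-! NP-complete sets without self-reductions, logarithmic advice. -/

namespace Pool.Agent.Results.MP_b1496c_lc.LogAdvice

open Pool.Agent.Helper53.CL Pool.Agent.Helper61.TQ Pool.Agent.Helper82.SR

/-- If P is different from NP then for each `c` there is a set `A`, NP-complete and p-isomorphic to
SAT, which does not reduce to itself in polynomial time with logarithmically many bits of advice and
with queries of lengths different from the length `n` of the input and at most `n ^ c + c`. -/
theorem result (h : ¬ PEqNP) (c : ℕ) :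
    ∃ A : Set (List Bool), NPComplete A ∧ PIso SAT A ∧ ∀ k : ℕ,
      ¬ SelfReducible (fun n => n ^ c + c) (fun n => n ^ k + k) (fun n => k * Nat.log 2 n + k) A :=
  logAdvice h c

end Pool.Agent.Results.MP_b1496c_lc.LogAdvice
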